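import Pool.Agent.Y45.MON.Main

/-!
# MP_e0e7d6_al (helper45): no algorithm decides whether a finitely based semigroup variety contains
an infinite finitely generated periodic semigroup

Proof: project MON (`Pool/Agent/Y*/MON/`): large exponent groups in which words have prescribed
orders depending on colours, and a simulation of Turing machines by laws of such groups.
-/

set_option autoImplicit false

namespace Pool.Agent.Results.MP_e0e7d6_al.PeriodicUndecidable

/-- the value of a nonempty word `w = w.1 w.2` in a semigroup under the substitution `f` -/
def val {S : Type} [Semigroup S] (f : ℕ → S) (w : ℕ × List ℕ) : S :=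
  w.2.foldl (fun s b => s * f b) (f w.1)

/-- all identities of the list hold in `S` -/
def Sat (S : Type) [Semigroup S] (I : List ((ℕ × List ℕ) × (ℕ × List ℕ))) : Prop :=
  ∀ u ∈ I, ∀ f : ℕ → S, val f u.1 = val f u.2

/-- there is no algorithm which decides for a finite list of semigroup identities whether the
variety defined by them contains an infinite finitely generated periodic semigroup -/
theorem result : ¬ ComputablePred (fun I : List ((ℕ × List ℕ) × (ℕ × List ℕ)) =>
    ∃ (S : Type) (_ : Semigroup S), Sat S I ∧ Infinite S ∧
      (∃ A : Set S, A.Finite ∧ Subsemigroup.closure A = ⊤) ∧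
      ∀ s : S, (Subsemigroup.closure {s} : Set S).Finite) :=
  Pool.Agent.Y45.MON.aSg

end Pool.Agent.Results.MP_e0e7d6_al.PeriodicUndecidable
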